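import Mathlib

/-!
# An abstract covering game and the bounds used for the total domination game
-/

set_option linter.unusedSectionVars false

namespace Helper77.TDG

open Finset

variable {V X : Type*} [Fintype V] [DecidableEq V] [DecidableEq X]

/-- `CE N k t U`: in the covering game with sets `N v` and uncovered set `U`, the first player
(`t = true` when it is their turn) can force the game to end within `k` more moves. -/
def CE (N : V → Finset X) : ℕ → Bool → Finset X → Prop
  | 0, _, U => U = ∅
  | k+1, true, U => U = ∅ ∨ ∃ v, (N v ∩ U).Nonempty ∧ CE N k false (U \ N v)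
  | k+1, false, U => ∀ v, (N v ∩ U).Nonempty → CE N k true (U \ N v)

/-- Vertices that still meet the uncovered set. -/
def alive (N : V → Finset X) (U : Finset X) : Finset V :=
  univ.filter fun v => (N v ∩ U).Nonempty

variable {N : V → Finset X} {U : Finset X}

lemma mem_alive {v : V} : v ∈ alive N U ↔ (N v ∩ U).Nonempty := by simp [alive]

lemma alive_card_step {v : V} (hv : (N v ∩ U).Nonempty) :
    (alive N (U \ N v)).card + 1 ≤ (alive N U).card := by
  have h1 : alive N (U \ N v) ⊆ (alive N U).erase v := by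
    intro u hu
    rw [mem_alive] at hu
    obtain ⟨x, hx⟩ := hu
    simp only [mem_inter, mem_sdiff] at hx
    rw [mem_erase, mem_alive]
    refine ⟨?_, x, ?_⟩
    · rintro rfl
      exact hx.2.2 hx.1
    · simp [hx.1, hx.2.1]
  have h2 := card_le_card h1
  have h3 : v ∈ alive N U := mem_alive.2 hv
  rw [card_erase_of_mem h3] at h2
  have h4 : 0 < (alive N U).card := card_pos.2 ⟨v, h3⟩
  omega

lemma card_step (v : V) : (U \ N v).card + (N v ∩ U).card = U.card := by
  rw [inter_comm]
  exact card_sdiff_add_card_inter U (N v)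

lemma two_le_alive (hN : ∀ x, 2 ≤ (univ.filter fun v => x ∈ N v).card) (hU : U ≠ ∅) :
    2 ≤ (alive N U).card := by
  obtain ⟨x, hx⟩ := nonempty_iff_ne_empty.2 hU
  refine (hN x).trans (card_le_card ?_)
  intro v hv
  rw [mem_filter] at hv
  exact mem_alive.2 ⟨x, mem_inter.2 ⟨hv.2, hx⟩⟩

lemma exists_cover (hN : ∀ x, 2 ≤ (univ.filter fun v => x ∈ N v).card) (x : X) :
    ∃ v, x ∈ N v := by
  have h := hN x
  have : 0 < (univ.filter fun v => x ∈ N v).card := by omega
  obtain ⟨v, hv⟩ := card_pos.1 this
  exact ⟨v, (mem_filter.1 hv).2⟩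

lemma exists_other (hN : ∀ x, 2 ≤ (univ.filter fun v => x ∈ N v).card) (x : X) (w : V) :
    ∃ v, v ≠ w ∧ x ∈ N v := by
  have h := hN x
  obtain ⟨v, hv, hvw⟩ := exists_mem_ne (s := univ.filter fun v => x ∈ N v) (by omega) w
  exact ⟨v, hvw, (mem_filter.1 hv).2⟩

lemma CE_empty (k : ℕ) (t : Bool) : CE N k t ∅ := by
  cases k with
  | zero => simp [CE]
  | succ k =>
    cases t with
    | true => simp [CE]
    | false => simp [CE]

/-- Trivial bound: every move covers something. -/
lemma CE_of_card_le (hN : ∀ x, 2 ≤ (univ.filter fun v => x ∈ N v).card) (k : ℕ) :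
    ∀ (t : Bool) (U : Finset X), U.card ≤ k → CE N k t U := by
  induction k with
  | zero =>
    intro t U h
    have : U = ∅ := by
      rw [← card_eq_zero]; omega
    subst this
    exact CE_empty _ _
  | succ k ih =>
    intro t U h
    cases t with
    | true =>
      by_cases hU : U = ∅
      · exact Or.inl hU
      · right
        obtain ⟨x, hx⟩ := nonempty_iff_ne_empty.2 hU
        obtain ⟨v, hv⟩ := exists_cover hN x
        have hne : (N v ∩ U).Nonempty := ⟨x, mem_inter.2 ⟨hv, hx⟩⟩
        refine ⟨v, hne, ih _ _ ?_⟩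
        have := card_step (N := N) (U := U) v
        have := card_pos.2 hne
        omega
    | false =>
      intro v hne
      refine ih _ _ ?_
      have := card_step (N := N) (U := U) v
      have := card_pos.2 hne
      omega

/-- Lemma B. -/
lemma CE_B (hN : ∀ x, 2 ≤ (univ.filter fun v => x ∈ N v).card) (k : ℕ) :
    ∀ (U : Finset X), (2 * U.card + (alive N U).card ≤ 4 * k + 3 → CE N k true U) ∧
      (2 * U.card + (alive N U).card + 1 ≤ 4 * k + 3 → CE N k false U) := by
  induction k with
  | zero =>
    intro U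
    have key : 2 * U.card + (alive N U).card ≤ 3 → U = ∅ := by
      intro h
      by_contra hU
      have := two_le_alive hN hU
      have := card_pos.2 (nonempty_iff_ne_empty.2 hU)
      omega
    constructor
    · intro h
      rw [key (by omega)]; exact CE_empty _ _
    · intro h
      rw [key (by omega)]; exact CE_empty _ _
  | succ k ih =>
    intro U
    constructor
    · intro h
      by_cases hU : U = ∅
      · exact Or.inl hU
      by_cases hdeg : ∃ v, 2 ≤ (N v ∩ U).card
      · obtain ⟨v, hv⟩ := hdeg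
        right
        have hne : (N v ∩ U).Nonempty := card_pos.1 (by omega)
        refine ⟨v, hne, (ih _).2 ?_⟩
        have := card_step (N := N) (U := U) v
        have := alive_card_step hne
        omega
      · push Not at hdeg
        -- all degrees at most one: alive ≥ 2 |U|
        have h1 : 2 * U.card ≤ (alive N U).card := by
          have h2 : (U.biUnion fun x => univ.filter fun v => x ∈ N v) ⊆ alive N U := by
            intro v hv
            rw [mem_biUnion] at hv
            obtain ⟨x, hx, hxv⟩ := hv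
            exact mem_alive.2 ⟨x, mem_inter.2 ⟨(mem_filter.1 hxv).2, hx⟩⟩
          have h3 := card_le_card h2
          rw [card_biUnion] at h3
          · have h4 : ∑ x ∈ U, 2 ≤ ∑ x ∈ U, (univ.filter fun v => x ∈ N v).card :=
              sum_le_sum fun x _ => hN x
            rw [sum_const, smul_eq_mul] at h4
            omega
          · intro x hx y hy hxy
            change Disjoint (univ.filter fun v => x ∈ N v) (univ.filter fun v => y ∈ N v)
            rw [disjoint_left]
            intro v hvx hvy
            have hvx' := (mem_filter.1 hvx).2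
            have hvy' := (mem_filter.1 hvy).2
            have h5 := hdeg v
            have h6 : 1 < (N v ∩ U).card := by
              rw [one_lt_card]
              exact ⟨x, mem_inter.2 ⟨hvx', hx⟩, y, mem_inter.2 ⟨hvy', hy⟩, hxy⟩
            omega
        exact CE_of_card_le hN _ _ _ (by omega)
    · intro h v hne
      refine (ih _).1 ?_
      have := card_step (N := N) (U := U) v
      have := alive_card_step hne
      have := card_pos.2 hne
      omega

/-! ### Lemma A -/

/-- Isolated uncovered nodes: every vertex covering them covers nothing else. -/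
def iso (N : V → Finset X) (U : Finset X) : Finset X :=
  U.filter fun x => ∀ v, x ∈ N v → N v ∩ U = {x}

/-- Non-isolated uncovered nodes. -/
def noniso (N : V → Finset X) (U : Finset X) : Finset X :=
  U.filter fun x => ¬ ∀ v, x ∈ N v → N v ∩ U = {x}

/-- Vertices covering some non-isolated node. -/
def big (N : V → Finset X) (U : Finset X) : Finset V :=
  univ.filter fun v => (N v ∩ noniso N U).Nonempty

/-- Some non-isolated node has a private vertex. -/
def Hot (N : V → Finset X) (U : Finset X) : Prop :=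
  ∃ x ∈ noniso N U, ∃ v, N v ∩ U = {x}

lemma mem_iso {x : X} : x ∈ iso N U ↔ x ∈ U ∧ ∀ v, x ∈ N v → N v ∩ U = {x} := by
  simp [iso]

lemma mem_noniso {x : X} : x ∈ noniso N U ↔ x ∈ U ∧ ¬ ∀ v, x ∈ N v → N v ∩ U = {x} := by
  simp only [noniso, mem_filter]

lemma mem_noniso' {x : X} : x ∈ noniso N U ↔ x ∈ U ∧ x ∉ iso N U := by
  rw [mem_noniso, mem_iso]
  tauto

lemma mem_big {v : V} : v ∈ big N U ↔ ∃ x, x ∈ N v ∧ x ∈ noniso N U := by
  simp only [big, mem_filter, mem_univ, true_and]
  constructor
  · rintro ⟨x, hx⟩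
    exact ⟨x, mem_inter.1 hx⟩
  · rintro ⟨x, hx⟩
    exact ⟨x, mem_inter.2 hx⟩

/-- `|B| + 2 |I| ≤ A`. -/
lemma big_add_iso_le (hN : ∀ x, 2 ≤ (univ.filter fun v => x ∈ N v).card) (U : Finset X) :
    (big N U).card + 2 * (iso N U).card ≤ (alive N U).card := by
  have hP : ((iso N U).biUnion fun x => univ.filter fun v => x ∈ N v).card
      = ∑ x ∈ iso N U, (univ.filter fun v => x ∈ N v).card := by
    rw [card_biUnion]
    intro x hx y hy hxy
    change Disjoint (univ.filter fun v => x ∈ N v) (univ.filter fun v => y ∈ N v)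
    rw [disjoint_left]
    intro v hvx hvy
    have hx' := (mem_iso.1 hx).2 v (mem_filter.1 hvx).2
    have hy' := (mem_iso.1 hy).2 v (mem_filter.1 hvy).2
    rw [hx'] at hy'
    exact hxy (singleton_injective hy')
  have hs : ∑ x ∈ iso N U, 2 ≤ ∑ x ∈ iso N U, (univ.filter fun v => x ∈ N v).card :=
    sum_le_sum fun x _ => hN x
  rw [sum_const, smul_eq_mul] at hs
  have hd : Disjoint (big N U) ((iso N U).biUnion fun x => univ.filter fun v => x ∈ N v) := by
    rw [disjoint_left]
    intro v hv hv'
    obtain ⟨x, hxv, hx⟩ := mem_big.1 hv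
    obtain ⟨y, hy, hyv⟩ := mem_biUnion.1 hv'
    have h1 := (mem_iso.1 hy).2 v (mem_filter.1 hyv).2
    have h2 : x ∈ N v ∩ U := mem_inter.2 ⟨hxv, (mem_noniso.1 hx).1⟩
    rw [h1, mem_singleton] at h2
    subst h2
    exact (mem_noniso'.1 hx).2 hy
  have hsub : (big N U) ∪ ((iso N U).biUnion fun x => univ.filter fun v => x ∈ N v)
      ⊆ alive N U := by
    intro v hv
    rcases mem_union.1 hv with hv | hv
    · obtain ⟨x, hxv, hx⟩ := mem_big.1 hv
      exact mem_alive.2 ⟨x, mem_inter.2 ⟨hxv, (mem_noniso.1 hx).1⟩⟩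
    · obtain ⟨y, hy, hyv⟩ := mem_biUnion.1 hv
      exact mem_alive.2 ⟨y, mem_inter.2 ⟨(mem_filter.1 hyv).2, (mem_iso.1 hy).1⟩⟩
  have h3 := card_le_card hsub
  rw [card_union_of_disjoint hd, hP] at h3
  omega

/-- Tempo move: playing a vertex whose only uncovered node is an isolated one. -/
lemma tempo_iso {v : V} {x : X} (hx : x ∈ iso N U) (hv : x ∈ N v) :
    iso N (U \ N v) = (iso N U).erase x ∧ noniso N (U \ N v) = noniso N U ∧
      big N (U \ N v) = big N U ∧ (Hot N (U \ N v) ↔ Hot N U) := by
  have hvU : N v ∩ U = {x} := (mem_iso.1 hx).2 v hv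
  have hU' : ∀ y, y ∈ U \ N v ↔ y ∈ U ∧ y ≠ x := by
    intro y
    rw [mem_sdiff]
    constructor
    · rintro ⟨h1, h2⟩
      exact ⟨h1, fun h => h2 (h ▸ hv)⟩
    · rintro ⟨h1, h2⟩
      refine ⟨h1, fun h => h2 ?_⟩
      have : y ∈ N v ∩ U := mem_inter.2 ⟨h, h1⟩
      rw [hvU, mem_singleton] at this
      exact this
  have hinter : ∀ u, x ∉ N u → N u ∩ (U \ N v) = N u ∩ U := by
    intro u hu
    ext y
    rw [mem_inter, mem_inter, hU']
    constructor
    · rintro ⟨h1, h2, -⟩
      exact ⟨h1, h2⟩
    · rintro ⟨h1, h2⟩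
      exact ⟨h1, h2, fun h => hu (h ▸ h1)⟩
  have hxu : ∀ y, y ∈ U → y ≠ x → ∀ u, y ∈ N u → x ∉ N u := by
    intro y hy hyx u hyu hxu
    have h1 := (mem_iso.1 hx).2 u hxu
    have h2 : y ∈ N u ∩ U := mem_inter.2 ⟨hyu, hy⟩
    rw [h1, mem_singleton] at h2
    exact hyx h2
  have hI : iso N (U \ N v) = (iso N U).erase x := by
    ext y
    rw [mem_erase, mem_iso, mem_iso, hU']
    constructor
    · rintro ⟨⟨h1, h2⟩, h3⟩
      refine ⟨h2, h1, fun u hu => ?_⟩
      rw [← hinter u (hxu y h1 h2 u hu)]
      exact h3 u hu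
    · rintro ⟨h1, h2, h3⟩
      refine ⟨⟨h2, h1⟩, fun u hu => ?_⟩
      rw [hinter u (hxu y h2 h1 u hu)]
      exact h3 u hu
  have hNI : noniso N (U \ N v) = noniso N U := by
    ext y
    rw [mem_noniso', mem_noniso', hI, mem_erase, hU']
    constructor
    · rintro ⟨⟨h1, h2⟩, h3⟩
      exact ⟨h1, fun h => h3 ⟨h2, h⟩⟩
    · rintro ⟨h1, h2⟩
      exact ⟨⟨h1, fun h => h2 (h ▸ hx)⟩, fun h => h2 h.2⟩
  refine ⟨hI, hNI, ?_, ?_⟩
  · unfold big
    rw [hNI]
  · unfold Hot
    rw [hNI]
    have hne : ∀ y ∈ noniso N U, y ≠ x := by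
      intro y hy h
      exact (mem_noniso'.1 hy).2 (h ▸ hx)
    constructor
    · rintro ⟨y, hy, u, hu⟩
      refine ⟨y, hy, u, ?_⟩
      have hyu : y ∈ N u ∩ (U \ N v) := by rw [hu]; exact mem_singleton_self y
      rw [← hinter u (hxu y (mem_noniso.1 hy).1 (hne y hy) u (mem_inter.1 hyu).1)]
      exact hu
    · rintro ⟨y, hy, u, hu⟩
      refine ⟨y, hy, u, ?_⟩
      have hyu : y ∈ N u ∩ U := by rw [hu]; exact mem_singleton_self y
      rw [hinter u (hxu y (mem_noniso.1 hy).1 (hne y hy) u (mem_inter.1 hyu).1)]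
      exact hu

/-- Non-tempo move: isolated nodes stay isolated. -/
lemma iso_subset {v : V} (hv : v ∈ big N U) : iso N U ⊆ iso N (U \ N v) := by
  intro y hy
  obtain ⟨x, hxv, hx⟩ := mem_big.1 hv
  have hyU := (mem_iso.1 hy).1
  have hyv : y ∉ N v := by
    intro h
    have h1 := (mem_iso.1 hy).2 v h
    have h2 : x ∈ N v ∩ U := mem_inter.2 ⟨hxv, (mem_noniso.1 hx).1⟩
    rw [h1, mem_singleton] at h2
    subst h2
    exact (mem_noniso'.1 hx).2 hy
  rw [mem_iso]
  refine ⟨mem_sdiff.2 ⟨hyU, hyv⟩, fun u hu => ?_⟩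
  have h1 := (mem_iso.1 hy).2 u hu
  apply Subset.antisymm
  · intro z hz
    rw [mem_inter, mem_sdiff] at hz
    rw [← h1]
    exact mem_inter.2 ⟨hz.1, hz.2.1⟩
  · intro z hz
    rw [mem_singleton] at hz
    subst hz
    exact mem_inter.2 ⟨hu, mem_sdiff.2 ⟨hyU, hyv⟩⟩

/-- The vertices of `big` which cover nothing after the move `v`. -/
def dead (N : V → Finset X) (U : Finset X) (v : V) : Finset V :=
  (big N U).filter fun u => N u ∩ (U \ N v) = ∅

/-- Non-tempo move: counting. -/
lemma big_step (hN : ∀ x, 2 ≤ (univ.filter fun v => x ∈ N v).card) {v : V}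
    (hv : v ∈ big N U) :
    (big N (U \ N v)).card + (dead N U v).card + 2 * (iso N (U \ N v)).card
      ≤ (big N U).card + 2 * (iso N U).card := by
  have hsub := iso_subset hv
  set U' := U \ N v with hU'
  set J := iso N U' \ iso N U with hJ
  have hJcard : J.card + (iso N U).card = (iso N U').card :=
    card_sdiff_add_card_eq_card hsub
  have hU'U : U' ⊆ U := sdiff_subset
  have hPJ : (J.biUnion fun x => univ.filter fun v => x ∈ N v).card
      = ∑ x ∈ J, (univ.filter fun v => x ∈ N v).card := by
    rw [card_biUnion]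
    intro x hx y hy hxy
    change Disjoint (univ.filter fun v => x ∈ N v) (univ.filter fun v => y ∈ N v)
    rw [disjoint_left]
    intro w hvx hvy
    have hx' := (mem_iso.1 (mem_sdiff.1 hx).1).2 w (mem_filter.1 hvx).2
    have hy' := (mem_iso.1 (mem_sdiff.1 hy).1).2 w (mem_filter.1 hvy).2
    rw [hx'] at hy'
    exact hxy (singleton_injective hy')
  have hs : ∑ x ∈ J, 2 ≤ ∑ x ∈ J, (univ.filter fun v => x ∈ N v).card :=
    sum_le_sum fun x _ => hN x
  rw [sum_const, smul_eq_mul] at hs
  set P := J.biUnion fun x => univ.filter fun v => x ∈ N v with hP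
  have hPmem : ∀ u, u ∈ P ↔ ∃ x ∈ J, x ∈ N u := by
    intro u
    simp [hP]
  have hd1 : Disjoint (big N U') (dead N U v) := by
    rw [disjoint_left]
    intro u hu hu'
    obtain ⟨x, hxu, hx⟩ := mem_big.1 hu
    have h1 := (mem_filter.1 hu').2
    have h2 : x ∈ N u ∩ (U \ N v) := mem_inter.2 ⟨hxu, (mem_noniso.1 hx).1⟩
    rw [h1] at h2
    exact notMem_empty _ h2
  have hd2 : Disjoint (big N U' ∪ dead N U v) P := by
    rw [disjoint_left]
    intro u hu hu'
    obtain ⟨y, hy, hyu⟩ := (hPmem u).1 hu'
    have hyI := (mem_iso.1 (mem_sdiff.1 hy).1)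
    have hyuU := hyI.2 u hyu
    rcases mem_union.1 hu with hu | hu
    · obtain ⟨x, hxu, hx⟩ := mem_big.1 hu
      have h2 : x ∈ N u ∩ U' := mem_inter.2 ⟨hxu, (mem_noniso.1 hx).1⟩
      rw [hyuU, mem_singleton] at h2
      subst h2
      exact (mem_noniso'.1 hx).2 (mem_sdiff.1 hy).1
    · have h1 := (mem_filter.1 hu).2
      rw [← hU', hyuU] at h1
      exact singleton_ne_empty _ h1
  have hsub2 : (big N U' ∪ dead N U v) ∪ P ⊆ big N U := by
    intro u hu
    rcases mem_union.1 hu with hu | hu
    · rcases mem_union.1 hu with hu | hu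
      · obtain ⟨x, hxu, hx⟩ := mem_big.1 hu
        refine mem_big.2 ⟨x, hxu, mem_noniso'.2 ⟨hU'U (mem_noniso.1 hx).1, fun h => ?_⟩⟩
        exact (mem_noniso'.1 hx).2 (hsub h)
      · exact (mem_filter.1 hu).1
    · obtain ⟨y, hy, hyu⟩ := (hPmem u).1 hu
      refine mem_big.2 ⟨y, hyu, mem_noniso'.2 ⟨hU'U (mem_iso.1 (mem_sdiff.1 hy).1).1, ?_⟩⟩
      exact (mem_sdiff.1 hy).2
  have h3 := card_le_card hsub2
  rw [card_union_of_disjoint hd2, card_union_of_disjoint hd1, hPJ] at h3
  omega

lemma self_mem_dead {v : V} (hv : v ∈ big N U) : v ∈ dead N U v := by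
  refine mem_filter.2 ⟨hv, ?_⟩
  ext z
  simp only [mem_inter, mem_sdiff, notMem_empty, iff_false]
  rintro ⟨h1, -, h2⟩
  exact h2 h1

lemma one_le_dead {v : V} (hv : v ∈ big N U) : 1 ≤ (dead N U v).card :=
  card_pos.2 ⟨v, self_mem_dead hv⟩

/-- In the degree-at-most-two world, a non-tempo move that creates no isolated node and leaves a
quiet position kills a second vertex. -/
lemma two_le_dead (hN : ∀ x, 2 ≤ (univ.filter fun v => x ∈ N v).card)
    (hdeg : ∀ v, (N v ∩ U).card ≤ 2) {v : V} (hv : v ∈ big N U)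
    (hj : iso N (U \ N v) ⊆ iso N U) (hq : ¬ Hot N (U \ N v)) :
    2 ≤ (dead N U v).card := by
  obtain ⟨x, hxv, hx⟩ := mem_big.1 hv
  obtain ⟨u, huv, hxu⟩ := exists_other hN x v
  have hub : u ∈ big N U := mem_big.2 ⟨x, hxu, hx⟩
  have hud : u ∈ dead N U v := by
    refine mem_filter.2 ⟨hub, ?_⟩
    by_contra hne
    obtain ⟨y, hy⟩ := nonempty_iff_ne_empty.2 hne
    have hyu := (mem_inter.1 hy).1
    have hyU' := (mem_inter.1 hy).2
    have hyU := (mem_sdiff.1 hyU').1
    have hyv := (mem_sdiff.1 hyU').2
    have hyx : y ≠ x := fun h => hyv (h ▸ hxv)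
    have hxU := (mem_noniso.1 hx).1
    -- N u ∩ U = {x, y}
    have hsub : ({x, y} : Finset X) ⊆ N u ∩ U := by
      intro z hz
      rw [mem_insert, mem_singleton] at hz
      rcases hz with rfl | rfl
      · exact mem_inter.2 ⟨hxu, hxU⟩
      · exact mem_inter.2 ⟨hyu, hyU⟩
    have heq : ({x, y} : Finset X) = N u ∩ U := by
      apply eq_of_subset_of_card_le hsub
      rw [card_pair (Ne.symm hyx)]
      exact hdeg u
    have hsing : N u ∩ (U \ N v) = {y} := by
      ext z
      rw [mem_inter, mem_sdiff, mem_singleton]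
      constructor
      · rintro ⟨h1, h2, h3⟩
        have h4 : z ∈ ({x, y} : Finset X) := by rw [heq]; exact mem_inter.2 ⟨h1, h2⟩
        rw [mem_insert, mem_singleton] at h4
        rcases h4 with rfl | h4
        · exact absurd hxv h3
        · exact h4
      · rintro rfl
        exact ⟨hyu, hyU, hyv⟩
    have hyI : y ∉ iso N U := by
      intro h
      have h1 := (mem_iso.1 h).2 u hyu
      have h2 : x ∈ N u ∩ U := mem_inter.2 ⟨hxu, hxU⟩
      rw [h1, mem_singleton] at h2
      exact hyx h2.symm
    exact hq ⟨y, mem_noniso'.2 ⟨hyU', fun h => hyI (hj h)⟩, u, hsing⟩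
  have : 1 < (dead N U v).card := one_lt_card.2 ⟨u, hud, v, self_mem_dead hv, huv⟩
  omega

open Classical in
/-- The defect when it is the first player's turn. -/
noncomputable def pD (N : V → Finset X) (U : Finset X) : ℕ :=
  if Hot N U then (iso N U).card % 2 else 2 - (iso N U).card % 2

/-- The defect when it is the second player's turn. -/
def pS (N : V → Finset X) (U : Finset X) : ℕ := (iso N U).card % 2 + 1

lemma pD_hot (h : Hot N U) : pD N U = (iso N U).card % 2 := by simp [pD, h]

lemma pD_quiet (h : ¬ Hot N U) : pD N U = 2 - (iso N U).card % 2 := by simp [pD, h]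

lemma pD_le : pD N U ≤ 2 - (iso N U).card % 2 := by
  by_cases h : Hot N U
  · rw [pD_hot h]; omega
  · rw [pD_quiet h]

lemma alive_cases {v : V} (hv : (N v ∩ U).Nonempty) :
    v ∈ big N U ∨ ∃ x ∈ iso N U, x ∈ N v := by
  obtain ⟨x, hx⟩ := hv
  rw [mem_inter] at hx
  by_cases h : x ∈ iso N U
  · exact Or.inr ⟨x, h, hx.1⟩
  · exact Or.inl (mem_big.2 ⟨x, hx.1, mem_noniso'.2 ⟨hx.2, h⟩⟩)

lemma iso_card_mono {v : V} (hv : v ∈ big N U) : (iso N U).card ≤ (iso N (U \ N v)).card :=
  card_le_card (iso_subset hv)

lemma inter_nonempty_of_big {v : V} (hv : v ∈ big N U) : (N v ∩ U).Nonempty := by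
  obtain ⟨x, h1, h2⟩ := mem_big.1 hv
  exact ⟨x, mem_inter.2 ⟨h1, (mem_noniso.1 h2).1⟩⟩

lemma deg_mono (hdeg : ∀ v, (N v ∩ U).card ≤ 2) (w : V) : ∀ v, (N v ∩ (U \ N w)).card ≤ 2 :=
  fun v => (card_le_card (inter_subset_inter_left sdiff_subset)).trans (hdeg v)

lemma two_le_big (hN : ∀ x, 2 ≤ (univ.filter fun v => x ∈ N v).card) {x : X}
    (hx : x ∈ noniso N U) : 2 ≤ (big N U).card := by
  refine (hN x).trans (card_le_card ?_)
  intro v hv
  exact mem_big.2 ⟨x, (mem_filter.1 hv).2, hx⟩

/-- Lemma A. -/
lemma CE_A (hN : ∀ x, 2 ≤ (univ.filter fun v => x ∈ N v).card) (k : ℕ) :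
    ∀ (U : Finset X), (∀ v, (N v ∩ U).card ≤ 2) →
      (2 * (big N U).card + 3 * (iso N U).card + pD N U ≤ 3 * k + 3 → CE N k true U) ∧
      (2 * (big N U).card + 3 * (iso N U).card + pS N U ≤ 3 * k + 3 → CE N k false U) := by
  induction k with
  | zero =>
    intro U hdeg
    have key : U ≠ ∅ → ¬ (2 * (big N U).card + 3 * (iso N U).card + pD N U ≤ 3) ∧
        ¬ (2 * (big N U).card + 3 * (iso N U).card + pS N U ≤ 3) := by
      intro hU
      obtain ⟨x, hx⟩ := nonempty_iff_ne_empty.2 hU
      by_cases hni : (noniso N U).Nonempty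
      · obtain ⟨y, hy⟩ := hni
        have := two_le_big hN hy
        omega
      · have hxI : x ∈ iso N U := by
          by_contra h
          exact hni ⟨x, mem_noniso'.2 ⟨hx, h⟩⟩
        have hnh : ¬ Hot N U := by
          rintro ⟨y, hy, -⟩
          exact hni ⟨y, hy⟩
        have h1 : 0 < (iso N U).card := card_pos.2 ⟨x, hxI⟩
        have h2 := pD_quiet hnh
        unfold pS
        omega
    constructor
    · intro h
      by_cases hU : U = ∅
      · rw [hU]; exact CE_empty _ _
      · exact absurd h (key hU).1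
    · intro h
      by_cases hU : U = ∅
      · rw [hU]; exact CE_empty _ _
      · exact absurd h (key hU).2
  | succ k ih =>
    intro U hdeg
    constructor
    · intro h
      by_cases hU : U = ∅
      · exact Or.inl hU
      right
      -- a general non-tempo move
      have nontempo : ∀ v ∈ big N U,
          2 * (big N (U \ N v)).card + 3 * (iso N (U \ N v)).card + pS N (U \ N v) ≤ 3 * k + 3 →
          ∃ v, (N v ∩ U).Nonempty ∧ CE N k false (U \ N v) := by
        intro v hv h'
        exact ⟨v, inter_nonempty_of_big hv, (ih _ (deg_mono hdeg v)).2 h'⟩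
      by_cases hhot : Hot N U
      · rw [pD_hot hhot] at h
        obtain ⟨x, hx, v0, hv0⟩ := hhot
        -- a link at x
        obtain ⟨w, hxw, hw⟩ : ∃ w, x ∈ N w ∧ N w ∩ U ≠ {x} := by
          have := (mem_noniso.1 hx).2
          push Not at this
          exact this
        have hwb : w ∈ big N U := mem_big.2 ⟨x, hxw, hx⟩
        have hxv0 : x ∈ N v0 := by
          have : x ∈ N v0 ∩ U := by rw [hv0]; exact mem_singleton_self x
          exact (mem_inter.1 this).1
        have hv0b : v0 ∈ big N U := mem_big.2 ⟨x, hxv0, hx⟩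
        have hv0d : v0 ∈ dead N U w := by
          refine mem_filter.2 ⟨hv0b, ?_⟩
          ext z
          simp only [mem_inter, mem_sdiff, notMem_empty, iff_false]
          rintro ⟨h1, h2, h3⟩
          have : z ∈ N v0 ∩ U := mem_inter.2 ⟨h1, h2⟩
          rw [hv0, mem_singleton] at this
          exact h3 (this ▸ hxw)
        have hne : v0 ≠ w := by
          rintro rfl
          exact hw hv0
        have h2 : 1 < (dead N U w).card := one_lt_card.2 ⟨v0, hv0d, w, self_mem_dead hwb, hne⟩
        apply nontempo w hwb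
        have h3 := big_step hN hwb
        have h4 := iso_card_mono hwb
        unfold pS
        omega
      · rw [pD_quiet hhot] at h
        by_cases hpar : (iso N U).card % 2 = 1
        · -- tempo
          have h1 : 0 < (iso N U).card := by omega
          obtain ⟨x, hx⟩ := card_pos.1 h1
          obtain ⟨v, hv⟩ := exists_cover hN x
          obtain ⟨hI, hNI, hB, hH⟩ := tempo_iso hx hv
          refine ⟨v, ⟨x, mem_inter.2 ⟨hv, (mem_iso.1 hx).1⟩⟩, (ih _ (deg_mono hdeg v)).2 ?_⟩
          have h2 := card_erase_of_mem hx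
          rw [← hI] at h2
          rw [hB]
          unfold pS
          omega
        · by_cases hni : (noniso N U).Nonempty
          · obtain ⟨x, hx⟩ := hni
            obtain ⟨v, hv⟩ := exists_cover hN x
            have hvb : v ∈ big N U := mem_big.2 ⟨x, hv, hx⟩
            apply nontempo v hvb
            have h3 := big_step hN hvb
            have h4 := iso_card_mono hvb
            have h5 := one_le_dead hvb
            unfold pS
            omega
          · obtain ⟨x, hx⟩ := nonempty_iff_ne_empty.2 hU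
            have hxI : x ∈ iso N U := by
              by_contra h
              exact hni ⟨x, mem_noniso'.2 ⟨hx, h⟩⟩
            have h1 : 0 < (iso N U).card := card_pos.2 ⟨x, hxI⟩
            obtain ⟨v, hv⟩ := exists_cover hN x
            obtain ⟨hI, hNI, hB, hH⟩ := tempo_iso hxI hv
            refine ⟨v, ⟨x, mem_inter.2 ⟨hv, (mem_iso.1 hxI).1⟩⟩, (ih _ (deg_mono hdeg v)).2 ?_⟩
            have h2 := card_erase_of_mem hxI
            rw [← hI] at h2
            rw [hB]
            unfold pS
            omega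
    · intro h v hne
      refine (ih _ (deg_mono hdeg v)).1 ?_
      unfold pS at h
      by_cases hvb : v ∈ big N U
      · have h3 := big_step hN hvb
        have h4 := iso_card_mono hvb
        have h5 := one_le_dead hvb
        have h6 := pD_le (N := N) (U := U \ N v)
        by_cases hj : (iso N (U \ N v)).card = (iso N U).card
        · by_cases hhot : Hot N (U \ N v)
          · rw [pD_hot hhot]
            omega
          · have hj' : iso N (U \ N v) ⊆ iso N U := by
              rw [eq_of_subset_of_card_le (iso_subset hvb) (le_of_eq hj)]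
            have h7 := two_le_dead hN hdeg hvb hj' hhot
            omega
        · omega
      · rcases alive_cases hne with h' | ⟨x, hx, hxv⟩
        · exact absurd h' hvb
        · obtain ⟨hI, hNI, hB, hH⟩ := tempo_iso hx hxv
          have h1 : 0 < (iso N U).card := card_pos.2 ⟨x, hx⟩
          have h2 := card_erase_of_mem hx
          rw [← hI] at h2
          have h6 := pD_le (N := N) (U := U \ N v)
          rw [hB]
          omega

/-- Lemma C. -/
theorem CE_C (hN : ∀ x, 2 ≤ (univ.filter fun v => x ∈ N v).card) (k : ℕ) :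
    ∀ (U : Finset X),
      (2 * U.card + 3 * (alive N U).card + 1 ≤ 7 * k + 6 → CE N k true U) ∧
      (2 * U.card + 3 * (alive N U).card + 3 ≤ 7 * k + 6 → CE N k false U) := by
  induction k with
  | zero =>
    intro U
    have key : 2 * U.card + 3 * (alive N U).card + 1 ≤ 6 → U = ∅ := by
      intro h
      by_contra hU
      have := two_le_alive hN hU
      have := card_pos.2 (nonempty_iff_ne_empty.2 hU)
      omega
    constructor
    · intro h
      rw [key (by omega)]; exact CE_empty _ _
    · intro h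
      rw [key (by omega)]; exact CE_empty _ _
  | succ k ih =>
    intro U
    by_cases hdeg : ∃ v, 3 ≤ (N v ∩ U).card
    · constructor
      · intro h
        obtain ⟨v, hv⟩ := hdeg
        right
        have hne : (N v ∩ U).Nonempty := card_pos.1 (by omega)
        refine ⟨v, hne, (ih _).2 ?_⟩
        have := card_step (N := N) (U := U) v
        have := alive_card_step hne
        omega
      · intro h v hne
        refine (ih _).1 ?_
        have := card_step (N := N) (U := U) v
        have := alive_card_step hne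
        have := card_pos.2 hne
        omega
    · push Not at hdeg
      have hdeg' : ∀ v, (N v ∩ U).card ≤ 2 := fun v => by have := hdeg v; omega
      have hbi := big_add_iso_le hN U
      have hpD := pD_le (N := N) (U := U)
      constructor
      · intro h
        by_cases hB : 2 * U.card + (alive N U).card ≤ 4 * (k + 1) + 3
        · exact (CE_B hN (k+1) U).1 hB
        · apply (CE_A hN (k+1) U hdeg').1
          omega
      · intro h
        by_cases hB : 2 * U.card + (alive N U).card + 1 ≤ 4 * (k + 1) + 3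
        · exact (CE_B hN (k+1) U).2 hB
        · apply (CE_A hN (k+1) U hdeg').2
          unfold pS
          omega

end Helper77.TDG
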